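import Pool.Agent.N879.PU.Asm3
import Pool.Agent.N879.PU.Ku
import Pool.Agent.N879.PU.Em
import Pool.Agent.N879.PU.Mv
import Pool.Agent.N879.PU.Reg
import Pool.Agent.N879.PU.Sms
import Pool.Agent.N879.PU.Winu
import Pool.Agent.N879.PU.Telu
import Pool.Agent.N879.PU.Iru
import Pool.Agent.TH509.GS.DIAG
import Pool.Agent.TH367.GS.SS
import Pool.Agent.TH448.GS.FL2
import Pool.Agent.TH347.GS.A4
import Pool.Agent.TH757.GS.CONT
import Pool.Agent.TH753.GS.GL2
import Pool.Agent.TH228.GS.ZM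
import Pool.Agent.TH811.GS.One
import Pool.Agent.TH928.GS.MV
import Pool.Agent.TH767.GS.NS

set_option autoImplicit false

/-! Assembly of project PU of the starting library (helper879). -/

namespace Pool.Agent.L5helper62.PU

open Pool.Agent.N879.PU

theorem mainU : S_MAINU2 := by
  have hFL2 := Pool.Agent.TH448.GS.t_FL2
  exact t_MAINU2 (t_KU t_EM t_MVS (t_MVT t_MVS)) (t_REG t_SMS) (t_WINU t_MVS) t_TELU t_IRU
    Pool.Agent.TH509.GS.t_DIAG (Pool.Agent.TH367.GS.t_SS hFL2)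
    (Pool.Agent.TH347.GS.t_A4 Pool.Agent.TH757.GS.t_CONT (Pool.Agent.TH753.GS.t_GL2 hFL2))
    (Pool.Agent.TH228.GS.t_ZM (Pool.Agent.TH811.GS.t_ONE Pool.Agent.TH928.GS.t_MV))
    Pool.Agent.TH767.GS.t_NS

end Pool.Agent.L5helper62.PU
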